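import Mathlib

/-!
PROJECT C2 (MP_2b0227_gt): common definitions.

Abstract parallel tangles, windows, one-positivity, the class HH1, families, couplings and the
statement of the two-sided MASTER THEOREM.
-/

namespace Pool.Agent.Helper52.C2

open LaurentPolynomial

/-! ### Forms -/

/-- the quadratic form of a matrix -/
def quad {ι : Type} [Fintype ι] (M : ι → ι → ℝ) (v : ι → ℝ) : ℝ :=
  ∑ a, ∑ b, v a * M a b * v b

/-- `M` is nonpositive on a hyperplane of the coordinate subspace of the allowed directions. -/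
def OnePos {ι : Type} [Fintype ι] (ok : ι → Prop) (M : ι → ι → ℝ) : Prop :=
  ∃ l : ι → ℝ, ∀ v : ι → ℝ, (∀ a, ¬ ok a → v a = 0) → ∑ a, l a * v a = 0 → quad M v ≤ 0

/-- directions of a window: the two variables and one direction for every channel -/
inductive Dir (J : Type) : Type
  | X : Dir J
  | Y : Dir J
  | V (k : J) : Dir J
  deriving DecidableEq

instance {J : Type} [Fintype J] : Fintype (Dir J) :=
  Fintype.ofEquiv (Option (Option J))
    { toFun := fun o => match o with
        | none => Dir.X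
        | some none => Dir.Y
        | some (some k) => Dir.V k
      invFun := fun d => match d with
        | .X => none
        | .Y => some none
        | .V k => some (some k)
      left_inv := by rintro (_ | _ | k) <;> rfl
      right_inv := by rintro (_ | _ | k) <;> rfl }

/-! ### Tangles -/

/-- An abstract parallel tangle, `F (1 - x) = L - R` (`x = T 1`). -/
@[ext] structure Tg where
  /-- left polynomial -/
  L : ℝ[T;T⁻¹]
  /-- right polynomial -/
  R : ℝ[T;T⁻¹]
  /-- polynomial of the closure -/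
  F : ℝ[T;T⁻¹]
  rel : F * (1 - T 1) = L - R

/-- prefix sums of the coefficients -/
noncomputable def pre (f : ℝ[T;T⁻¹]) (k : ℤ) : ℝ :=
  ∑ i ∈ f.coeff.support, if i ≤ k then f.coeff i else 0

/-- coefficient of `x^i` of `F (S U^n)`; `n ≥ -1` is used -/
noncomputable def Tg.h (S : Tg) (n i : ℤ) : ℝ := pre S.L i - pre S.R (i - n)

/-- `A` stacked with `B` -/
noncomputable def Tg.mul (A B : Tg) : Tg where
  L := A.L * B.L
  R := A.R * B.R
  F := A.R * B.F + A.F * B.L
  rel := by
    have h1 := A.rel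
    have h2 := B.rel
    have : (A.R * B.F + A.F * B.L) * (1 - T 1) =
      A.R * (B.F * (1 - T 1)) + (A.F * (1 - T 1)) * B.L := by ring
    rw [this, h1, h2]; ring

/-- The class HH1: one-positivity of the windows in the directions `X`, `Y` and the ring channel
`W`. The window at the base `(n, i)` has the entries `h (n - #W) (i + #X)`, except that the entry
`WW` for `n = 1` is the positive part of `h (-1) i`; for `n = 0` the direction `W` is not used. -/
noncomputable def Tg.win (S : Tg) (n : ℕ) (i : ℤ) : Dir Unit → Dir Unit → ℝ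
  | .X, .X => S.h n (i + 2)
  | .X, .Y => S.h n (i + 1)
  | .Y, .X => S.h n (i + 1)
  | .Y, .Y => S.h n i
  | .X, .V _ => S.h (n - 1) (i + 1)
  | .V _, .X => S.h (n - 1) (i + 1)
  | .Y, .V _ => S.h (n - 1) i
  | .V _, .Y => S.h (n - 1) i
  | .V _, .V _ => if n = 1 then max (S.h (-1) i) 0 else S.h (n - 2) i

/-- nonnegative coefficients -/
structure Tg.Nonneg (S : Tg) : Prop where
  L : ∀ i, 0 ≤ S.L.coeff i
  R : ∀ i, 0 ≤ S.R.coeff i
  F : ∀ i, 0 ≤ S.F.coeff i

/-- the class HH1 -/
structure Tg.HH1 (S : Tg) : Prop where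
  nonneg : S.Nonneg
  win : ∀ (n : ℕ) (i : ℤ), OnePos (fun d => match d with | .V _ => 1 ≤ n | _ => True) (S.win n i)

/-! ### The master theorem -/

/-- A family with parameters `E`: the main member `S`, the members `Se` in the parameter
directions and the entries `G` for two parameter directions. -/
structure Fam (E : Type) where
  /-- main member -/
  S : Tg
  /-- first order members -/
  Se : E → Tg
  /-- entries for two parameters -/
  G : E → E → ℕ → ℤ → ℝ

/-- the window of a family at the base `(n, i)` in the directions `X`, `Y`, `W = V none` and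
the parameters `V (some e)` -/
noncomputable def Fam.win {E : Type} (S : Fam E) (n : ℕ) (i : ℤ) :
    Dir (Option E) → Dir (Option E) → ℝ
  | .X, .X => S.S.h n (i + 2)
  | .X, .Y => S.S.h n (i + 1)
  | .Y, .X => S.S.h n (i + 1)
  | .Y, .Y => S.S.h n i
  | .X, .V none => S.S.h (n - 1) (i + 1)
  | .V none, .X => S.S.h (n - 1) (i + 1)
  | .Y, .V none => S.S.h (n - 1) i
  | .V none, .Y => S.S.h (n - 1) i
  | .V none, .V none => if n = 1 then max (S.S.h (-1) i) 0 else S.S.h (n - 2) i
  | .X, .V (some e) => (S.Se e).h n (i + 1)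
  | .V (some e), .X => (S.Se e).h n (i + 1)
  | .Y, .V (some e) => (S.Se e).h n i
  | .V (some e), .Y => (S.Se e).h n i
  | .V none, .V (some e) => (S.Se e).h (n - 1) i
  | .V (some e), .V none => (S.Se e).h (n - 1) i
  | .V (some e), .V (some e') => S.G e e' n i

/-- All windows of the family are one-positive; the main member is nonnegative and dominates
the others (domination: helper46). -/
structure Fam.Good {E : Type} [Fintype E] (S : Fam E) : Prop where
  nonneg : S.S.Nonneg
  symm : ∀ e e' n i, S.G e e' n i = S.G e' e n i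
  dom : ∀ (e : E) (n : ℕ) (i : ℤ), 0 ≤ (S.Se e).h n i ∧ (S.Se e).h n i ≤ S.S.h n i ∧
    (S.Se e).h n i ≤ S.S.h n (i + 1)
  domG : ∀ (e e' : E) (n : ℕ) (i : ℤ), 0 ≤ S.G e e' n i ∧ S.G e e' n i ≤ S.S.h n (i + 1)
  win : ∀ (n : ℕ) (i : ℤ),
    OnePos (fun d => match d with | .V none => 1 ≤ n | _ => True) (S.win n i)

/-- A coupling of `L` and `R` of a tangle: masses on the pairs `a ≤ a'`. -/
structure Cpl (S : Tg) where
  /-- masses -/
  m : ℤ × ℤ →₀ ℝ
  nonneg : ∀ c, 0 ≤ m c
  le : ∀ c, m c ≠ 0 → c.1 ≤ c.2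
  left : ∀ a, (∑ c ∈ m.support, if c.1 = a then m c else 0) = S.L.coeff a
  right : ∀ a, (∑ c ∈ m.support, if c.2 = a then m c else 0) = S.R.coeff a

/-- The window (level `n = 0`) of the product of a family and a tangle. -/
noncomputable def pwin1 {E : Type} (A : Fam E) (B : Tg) (r : Cpl B) (i : ℤ) :
    Dir E → Dir E → ℝ
  | .X, .X => (A.S.mul B).F.coeff (i + 2)
  | .X, .Y => (A.S.mul B).F.coeff (i + 1)
  | .Y, .X => (A.S.mul B).F.coeff (i + 1)
  | .Y, .Y => (A.S.mul B).F.coeff i
  | .X, .V e => ((A.Se e).mul B).F.coeff (i + 1)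
  | .V e, .X => ((A.Se e).mul B).F.coeff (i + 1)
  | .Y, .V e => ((A.Se e).mul B).F.coeff i
  | .V e, .Y => ((A.Se e).mul B).F.coeff i
  | .V e, .V e' => ∑ q ∈ r.m.support, r.m q * A.G e e' (q.2 - q.1).toNat (i - q.1)

/-- MASTER THEOREM (helper99), one-sided. THIS IS ALL WE NEED. For a suitable coupling (depending
on the base `i`) the window of the product of a good family and a tangle in HH1 is one-positive
in `X`, `Y` and all parameters. -/
def GoalMT1 : Prop := ∀ (E : Type) [Fintype E] [DecidableEq E] (A : Fam E) (B : Tg),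
  A.Good → B.HH1 → ∀ i : ℤ, ∃ r : Cpl B, OnePos (fun _ => True) (pwin1 A B r i)

/-- MASTER THEOREM with a coupling that only depends on `B` (it implies `GoalMT1`). -/
def GoalMT1' : Prop := ∀ B : Tg, B.HH1 → ∃ r : Cpl B,
  ∀ (E : Type) [Fintype E] [DecidableEq E] (A : Fam E), A.Good →
  ∀ i : ℤ, OnePos (fun _ => True) (pwin1 A B r i)

theorem mt1_of (h : GoalMT1') : GoalMT1 := fun E _ _ A B hA hB i => by
  obtain ⟨r, hr⟩ := h B hB
  exact ⟨r, hr E A hA i⟩

/-- The window (level `n = 0`) of the product of two families (not needed). -/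
noncomputable def pwin {E E' : Type} (A : Fam E) (B : Fam E') (c : Cpl A.S) (r : Cpl B.S)
    (i : ℤ) : Dir (E ⊕ E') → Dir (E ⊕ E') → ℝ
  | .X, .X => (A.S.mul B.S).F.coeff (i + 2)
  | .X, .Y => (A.S.mul B.S).F.coeff (i + 1)
  | .Y, .X => (A.S.mul B.S).F.coeff (i + 1)
  | .Y, .Y => (A.S.mul B.S).F.coeff i
  | .X, .V (.inl e) => ((A.Se e).mul B.S).F.coeff (i + 1)
  | .V (.inl e), .X => ((A.Se e).mul B.S).F.coeff (i + 1)
  | .Y, .V (.inl e) => ((A.Se e).mul B.S).F.coeff i
  | .V (.inl e), .Y => ((A.Se e).mul B.S).F.coeff i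
  | .X, .V (.inr e) => (A.S.mul (B.Se e)).F.coeff (i + 1)
  | .V (.inr e), .X => (A.S.mul (B.Se e)).F.coeff (i + 1)
  | .Y, .V (.inr e) => (A.S.mul (B.Se e)).F.coeff i
  | .V (.inr e), .Y => (A.S.mul (B.Se e)).F.coeff i
  | .V (.inl e), .V (.inr e') => ((A.Se e).mul (B.Se e')).F.coeff i
  | .V (.inr e'), .V (.inl e) => ((A.Se e).mul (B.Se e')).F.coeff i
  | .V (.inl e), .V (.inl e') =>
      ∑ q ∈ r.m.support, r.m q * A.G e e' (q.2 - q.1).toNat (i - q.1)
  | .V (.inr e), .V (.inr e') =>
      ∑ p ∈ c.m.support, c.m p * B.G e e' (p.2 - p.1).toNat (i - p.1)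

/-- MASTER THEOREM (helper99), two-sided (not needed). For suitable couplings (depending on the base `i`) the
window of the product of two good families is one-positive in `X`, `Y` and all parameters. -/
def GoalMT : Prop := ∀ (E E' : Type) [Fintype E] [DecidableEq E] [Fintype E'] [DecidableEq E']
  (A : Fam E) (B : Fam E'), A.Good → B.Good →
  ∀ i : ℤ, ∃ (c : Cpl A.S) (r : Cpl B.S), OnePos (fun _ => True) (pwin A B c r i)

end Pool.Agent.Helper52.C2
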