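import Pool.Agent.Helper52.C2.Ker
import Pool.Agent.Helper37.Arb.Main

/-!
PROJECT C2: goals of part (C) (substitution and induction over the terms). Complete proofs in
words are in the docstrings.
-/

namespace Pool.Agent.Helper52.C2

open LaurentPolynomial

/-! ### OP: one-positivity -/

/-- OP-MONO. One-positivity only depends on the entries of allowed directions and survives
lowering the diagonal (same `l`). -/
def GoalOpMono : Prop := ∀ (ι : Type) [Fintype ι] (ok : ι → Prop) (M N : ι → ι → ℝ),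
  OnePos ok M → (∀ a b, ok a → ok b → a ≠ b → N a b = M a b) → (∀ a, ok a → N a a ≤ M a a) →
  OnePos ok N

/-- OP-MAP. Transport along a map of the allowed directions. Proof: if `l` works for
`M`, use `l' b = if ok' b then l (g b) else 0`; for `v` supported on `ok'` take
`v' a = ∑ b with ok' b and g b = a, v b`. -/
def GoalOpMap : Prop := ∀ (ι κ : Type) [Fintype ι] [Fintype κ] (ok : ι → Prop) (ok' : κ → Prop)
  (M : ι → ι → ℝ) (N : κ → κ → ℝ) (g : κ → ι),
  OnePos ok M → (∀ b, ok' b → ok (g b)) →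
  (∀ b c, ok' b → ok' c → N b c = M (g b) (g c)) → OnePos ok' N

/-- OP-TWO. There is `v ≠ 0` supported on `X, Y` with `∑ l v = 0`; with `a = M X X ≥ 0`,
`b = M X Y`, `c = M Y Y` the form `a p^2 + 2 b p q + c q^2` is `≤ 0` at some `(p, q) ≠ 0`. If
`a c > b^2` then `a > 0` and `a (a p^2 + 2 b p q + c q^2) = (a p + b q)^2 + (a c - b^2) q^2 > 0`. -/
def GoalOpTwo : Prop := ∀ (J : Type) [Fintype J] (M : Dir J → Dir J → ℝ),
  M .X .Y = M .Y .X → 0 ≤ M .X .X →
  ∀ ok : Dir J → Prop, ok .X → ok .Y → OnePos ok M →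
  M .X .X * M .Y .Y ≤ M .X .Y ^ 2

/-! ### PRE: prefix sums -/

/-- PRE. The first: both sides have the same first differences in `i` (coefficients of `rel`) and
vanish for very negative `i`. -/
def GoalPre : Prop := (∀ (S : Tg) (i : ℤ), S.F.coeff i = pre S.L i - pre S.R i) ∧
  (∀ (f : ℝ[T;T⁻¹]) (i : ℤ), pre f i - pre f (i - 1) = f.coeff i) ∧
  (∀ (f g : ℝ[T;T⁻¹]) (i : ℤ), pre (f * g) i = ∑ a ∈ f.coeff.support, f.coeff a * pre g (i - a)) ∧
  (∀ (f : ℝ[T;T⁻¹]) (k i : ℤ), pre (T k * f) i = pre f (i - k)) ∧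
  (∀ (f g : ℝ[T;T⁻¹]) (i : ℤ), pre (f + g) i = pre f i + pre g i)

/-! ### ALG: algebra of the operations -/

/-- NONNEG. Products of nonnegative tangles are nonnegative, `U n` (`n ≥ 0`) is. -/
def GoalNonneg : Prop :=
  (∀ A B : Tg, A.Nonneg → B.Nonneg → (A.mul B).Nonneg) ∧ (∀ n : ℤ, 0 ≤ n → (U n).Nonneg)

/-- AFF. `Affine` and `SlotNonneg` for the three kernels. `slot K2 a 0` has
`F = F1 F2 F3`, `L = F1 F23 + L1 F2 F3`, `R = F1 F23 + R1 F2 F3` (`F23` of the product); the other
slots by symmetry; `slot K3 a 0`: `F = F1 F23`, `L = L1 F23 + x F1 F2 F3`,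
`R = R1 F23 + x F1 F2 F3`. -/
def GoalAff : Prop :=
  (Affine K1 ∧ SlotNonneg K1) ∧ (Affine K2 ∧ SlotNonneg K2) ∧ (Affine K3 ∧ SlotNonneg K3)

/-- a pair `(A, B)` beside a tangle -/
noncomputable def bes (A B : ℝ[T;T⁻¹]) (S : Tg) : Tg where
  L := B * S.L + A * S.F
  R := B * S.R + A * S.F
  F := B * S.F
  rel := by
    have := S.rel
    have e : B * S.F * (1 - T 1) = B * (S.F * (1 - T 1)) := by ring
    rw [e, this]; ring

/-- good pairs -/
def GoodPair (A B : ℝ[T;T⁻¹]) : Prop := ∀ S : Tg, S.HH1 → (bes A B S).HH1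

/-- SLOTEQ. The last slots (`a` is any assignment with the given values). -/
def GoalSlotEq : Prop :=
  (∀ a : Fin 3 → Tg, slot K1 a 2 = (a 0).mul (a 1)) ∧
  (∀ a : Fin 4 → Tg, slot K2 a 3 = bes (((a 0).mul (a 1)).F) ((a 0).F * (a 1).F) (a 2)) ∧
  (∀ a : Fin 4 → Tg,
    slot K3 a 3 = bes (T 1 * ((a 0).F * (a 1).F)) (((a 0).mul (a 1)).F) (a 2))

/-! ### SUBST, POS1, OPS -/

/-- SUBST. With `b = asg K a n` and `E = {l // K l ∧ l ≠ k ∧ 1 ≤ n l}` use the family
`S = slot Φ b k`, `Se e = slot Φ (asg K a (n - single e 1)) k`,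
`G e e' m j = kwin Φ K a (update n k m) j (V e) (V e')` in GoalMT1 (with `A` as `B`).
`asg K' a' n = update b k A` (`K'`, `a'` of the target); by `Affine` its value is
`A.R * S.F + A.F * S.L`, which is `(S.mul A).F` (the two orders of a product have the same `F`, by
`rel`), in the same way for the `Se e`. By CoefH and `Affine` with `U m` the windows of the family
are the windows of `Φ` at the base `(update n k m, j)`, so the family is good; nonnegativity from
`SlotNonneg`. The domination `dom`, `domG` in `Fam.Good`: for a nonnegative slot `(L, R, F)` of a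
channel of size `n ≥ 1` one has `Φ(n) - Φ(n-1) = x^(n-1) R`, `Φ(n) - x Φ(n-1) = L`, so
`Φ(n-1).coeff i ≤ Φ(n).coeff i` and `≤ Φ(n).coeff (i+1)`; twice for `G`; and
`Φ(-1).coeff i = F(i+1) - L(i+1) ≤ Φ(0).coeff (i+1) ≤ Φ(1).coeff (i+1)`. In the result the entry `(V e, V e')` is `∑ q, r.m q * G e e' (q.2 - q.1) (i - q.1)`;
off the diagonal, and on the diagonal for `n e ≥ 2`, this is the entry of the target by CoefMul
for `(A.mul S').F`, `S' = slot Φ (asg K a (n - e - e')) k`; on the diagonal for `n e = 1` the sum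
of the `m * max _ 0` is at least the `max` of the sum and `0`: OpMono. OpMap for the injection
`Dir J → Dir E` of the allowed directions. -/
def GoalSubst' : Prop := GoalMT1 → GoalCoefH → GoalCoefMul → GoalOpMono → GoalOpMap → GoalNonneg →
  GoalSubst

/-- POS1. If only the channel `w` is a ring then the windows of the kernel are the windows of the
tangle `slot Φ a w`: by `Affine`, `Φ (update a w (U n)) = ((U n).mul (slot Φ a w)).F` and
COEFH. -/
def GoalPos1 : Prop := GoalCoefH → GoalOpMap →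
  ∀ (J : Type) [Fintype J] [DecidableEq J] (Φ : (J → Tg) → ℝ[T;T⁻¹]) (K : J → Prop)
    [DecidablePred K] (a : J → Tg) (w : J), Affine Φ → (slot Φ a w).Nonneg →
    (∀ k, K k ↔ k = w) → Pos Φ K a → (slot Φ a w).HH1

/-- OPS: closure of HH1 and of good pairs. From GoalSubst applied to the channels `0, 1, 2`
of `K2` (`K3`; `0, 1` of `K1`) one after the other, starting with the ring kernel, then POS1 for
the last channel and SLOTEQ. -/
def GoalOps : Prop :=
  GoalSubst → GoalCoefH → GoalOpMap → GoalPos1 → GoalNonneg → GoalAff →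
  GoalSlotEq → GoalK1 → GoalK2 → GoalK3 →
  (∀ A B : Tg, A.HH1 → B.HH1 → (A.mul B).HH1) ∧
  (∀ A B : Tg, A.HH1 → B.HH1 → GoodPair ((A.mul B).F) (A.F * B.F)) ∧
  (∀ A B : Tg, A.HH1 → B.HH1 → GoodPair (T 1 * (A.F * B.F)) ((A.mul B).F))

/-! ### RING: the trivial kernels -/

/-- CROSS. `U 1` is in HH1: `h n i = 1` for `0 ≤ i ≤ n`, `0` otherwise (`n ≥ -1`). Windows:
for `0 ≤ i ≤ n - 2` all entries are `1`: `l` = sum of all coordinates; for `i ≤ -1`: `l` = the
coordinate `X` (all entries without `X` vanish); for `i ≥ n - 1`: `l` = the coordinate `Y`. -/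
def GoalCross : Prop := (U 1).HH1

/-- SHIFT. Multiplication of all polynomials by `x^k` shifts the windows. -/
def GoalShift : Prop := ∀ (S : Tg) (k : ℤ), S.HH1 →
  (⟨T k * S.L, T k * S.R, T k * S.F, by
    rw [mul_assoc, S.rel, mul_sub]⟩ : Tg).HH1

/-! ### Terms -/

open Pool.Agent.Helper37.Arb in
/-- one of the summands of an antiparallel tangle is a closure pair `opposite S T` -/
inductive HasOpp : Tangle false → Prop
  | opposite (S T : Tangle true) : HasOpp (.opposite S T)
  | sumLeft {P : Tangle false} (Q : Tangle false) : HasOpp P → HasOpp (.sum P Q)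
  | sumRight (P : Tangle false) {Q : Tangle false} : HasOpp Q → HasOpp (.sum P Q)
  | turnTurn {P : Tangle false} : HasOpp P → HasOpp (.turn (.turn P))

open Pool.Agent.Helper37.Arb in
/-- The class: all operations, but `turn P` only if one of the summands of `P` is a closure
pair. -/
inductive Fine : ∀ {s : Bool}, Tangle s → Prop
  | cross : Fine .cross
  | stack {S T : Tangle true} : Fine S → Fine T → Fine (.stack S T)
  | beside {P : Tangle false} {T : Tangle true} : Fine P → Fine T → Fine (.beside P T)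
  | flip {T : Tangle true} : Fine T → Fine (.flip T)
  | opposite {S T : Tangle true} : Fine S → Fine T → Fine (.opposite S T)
  | sum {P Q : Tangle false} : Fine P → Fine Q → Fine (.sum P Q)
  | turn {P : Tangle false} : Fine P → HasOpp P → Fine (.turn P)
  | turnTurn {P : Tangle false} : Fine P → Fine (.turn (.turn P))

/-- real Laurent polynomial of an integer polynomial -/
noncomputable def lau (p : Polynomial ℤ) : ℝ[T;T⁻¹] :=
  Polynomial.toLaurent (p.map (Int.castRingHom ℝ))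

/-- LAU. -/
def GoalLau : Prop := (∀ p q, lau (p * q) = lau p * lau q) ∧ (∀ p q, lau (p + q) = lau p + lau q) ∧
  lau 1 = 1 ∧ lau Polynomial.X = T 1 ∧ (∀ p i, (lau p).coeff i = Pool.Agent.Helper37.Arb.seq p i)

/-- CLASS. Induction over `Fine`: for parallel terms `T` the tangle with `L, R, F = lau` of the
data is in HH1; for pairs `P` the pair `(A, B) = (lau data.L, lau data.b)` is good, and if
`HasOpp P` then there are `S, T` in HH1 with `A = (S.mul T).F`, `B = S.F * T.F`. cross: CROSS with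
`U 1 = (1, x, 1)`; stack: first part of OPS (the data of `stack S T` are those of `mul S T`, in
the same order); beside: definition of good pairs; flip: same data; opposite: OPS; sum:
`bes (A₁ B₂ + B₁ A₂) (B₁ B₂) S = bes A₁ B₁ (bes A₂ B₂ S)`, and if `A₁ = (S.mul T).F`,
`B₁ = S.F * T.F` then the sum is the pair of `bes A₂ B₂ S`, `T`; if the second summand has the
opposite pair use `bes A₁ B₁ S` (the formula is symmetric);
turn: the second pair of OPS; turnTurn: the data are multiplied by `x`: SHIFT (and for HasOpp: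
shift `S`). Statement for the induction, with `Dec P` for the existence of `S, T` as above:
`GoodPair ∧ (HasOpp P → Dec P) ∧ (∀ P', P = turn P' → HasOpp P' → Dec P')` (the third part gives
the second for `turn (turn P')`). -/
def GoalClass : Prop := GoalLau → GoalCross → GoalShift →
  ((∀ A B : Tg, A.HH1 → B.HH1 → (A.mul B).HH1) ∧
  (∀ A B : Tg, A.HH1 → B.HH1 → GoodPair ((A.mul B).F) (A.F * B.F)) ∧
  (∀ A B : Tg, A.HH1 → B.HH1 → GoodPair (T 1 * (A.F * B.F)) ((A.mul B).F))) →
  (∀ T : Pool.Agent.Helper37.Arb.Tangle true, Fine T → ∃ S : Tg, S.HH1 ∧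
    S.L = lau T.data.L ∧ S.R = lau T.data.R ∧ S.F = lau T.data.b) ∧
  (∀ P : Pool.Agent.Helper37.Arb.Tangle false, Fine P → GoodPair (lau P.data.L) (lau P.data.b))

/-- SUPP. For ALL terms the polynomials are positive exactly on intervals. Induction with the
following statement. Parallel: `∃ k m, k ≤ N - 1 - k`, `k ≤ m ≤ N - k`, `b` is positive exactly on
`[k, N-1-k]`, `L` exactly on `[k, m]` (so `R` exactly on `[N-m, N-k]` by `Helper2.Arb.pal`).
Antiparallel: `∃ k k'`, `k' = k` or `k + 1`, `k ≤ N - 1 - k`, `k' ≤ N - k'`, `b` positive exactly on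
`[k, N-1-k]`, `L` exactly on `[k', N-k']`. cross: `k = m = 0`. stack: `k = k₁ + k₂`, `m = m₁ + m₂`;
`b = R₁ b₂ + b₁ L₂` is positive on `[N₁-m₁+k₂, N₁+N₂-1-k₁-k₂] ∪ [k₁+k₂, N₁-1-k₁+m₂]`.
beside (`P` with `k₁, k₁'`, `T` with `k, m`): `L = b₁ L + L₁ b` on
`[k₁+k, N₁-1-k₁+m] ∪ [k₁'+k, N₁-k₁'+N-1-k]`. opposite: `k = k' = k₁ + k₂`, `L` as `b` of stack.
sum: `k = k₁ + k₂`, `k' = min (k₁'+k₂) (k₁+k₂')`. turn: new `k = k'`, new `k' = k + 1`.
Products: `conv` of functions positive exactly on `[p,q]`, `[p',q']` is positive exactly on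
`[p+p', q+q']` (see `conv_pos'`, `conv_zero'` in Helper37/Arb/Assemble.lean); sums: unions of
overlapping or adjacent intervals. Use `Helper56.Arb.seqMul`, `Helper39.Arb.data2`. -/
def GoalSupp : Prop :=
  (∀ T : Pool.Agent.Helper37.Arb.Tangle true, ∃ k, k ≤ T.data.N - 1 - k ∧
    (∀ s, s < k ∨ T.data.N - 1 - k < s → Pool.Agent.Helper37.Arb.seq T.data.b s = 0) ∧
    (∀ s, k ≤ s → s ≤ T.data.N - 1 - k → 0 < Pool.Agent.Helper37.Arb.seq T.data.b s)) ∧
  (∀ P : Pool.Agent.Helper37.Arb.Tangle false, ∃ k, k ≤ P.data.N - 1 - k ∧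
    (∀ s, s < k ∨ P.data.N - 1 - k < s → Pool.Agent.Helper37.Arb.seq P.data.b s = 0) ∧
    (∀ s, k ≤ s → s ≤ P.data.N - 1 - k → 0 < Pool.Agent.Helper37.Arb.seq P.data.b s))

/-- LC. The closure of a tangle in HH1 is log-concave (window `n = 0`, `i - 1`, OP-TWO, PRE); for a
good pair apply this to `bes A B (U 1)`, whose `F` is `B`. -/
def GoalLc : Prop := GoalPre → GoalOpTwo → GoalCross →
  (∀ S : Tg, S.HH1 → ∀ i, S.F.coeff (i + 1) * S.F.coeff (i - 1) ≤ S.F.coeff i ^ 2) ∧
  (∀ A B : ℝ[T;T⁻¹], GoodPair A B → ∀ i, B.coeff (i + 1) * B.coeff (i - 1) ≤ B.coeff i ^ 2)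

/-- FINAL. As `finalGood_of` in Helper37/Arb/Final.lean, with LCI of `seq t.data.b` from CLASS,
LC, LAU and SUPP; the other inputs are `Helper54.Arb.coeff`, `resp_all`, `Helper19.Arb.close ..`,
`Helper39.Arb.data2`, `data1` as in Helper37/Arb/Main.lean. -/
def GoalFinal : Prop := GoalLau → GoalSupp →
  ((∀ T : Pool.Agent.Helper37.Arb.Tangle true, Fine T → ∃ S : Tg, S.HH1 ∧
    S.L = lau T.data.L ∧ S.R = lau T.data.R ∧ S.F = lau T.data.b) ∧
  (∀ P : Pool.Agent.Helper37.Arb.Tangle false, Fine P →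
    GoodPair (lau P.data.L) (lau P.data.b))) →
  ((∀ S : Tg, S.HH1 → ∀ i, S.F.coeff (i + 1) * S.F.coeff (i - 1) ≤ S.F.coeff i ^ 2) ∧
  (∀ A B : ℝ[T;T⁻¹], GoodPair A B → ∀ i, B.coeff (i + 1) * B.coeff (i - 1) ≤ B.coeff i ^ 2)) →
  ∀ {s : Bool} (t : Pool.Agent.Helper37.Arb.Tangle s), Fine t → ∀ u : t.diag.V,
  (∀ k, 0 ≤ (-1) ^ k * (t.diag.D.alexander u).coeff k) ∧
  (∀ k, (t.diag.D.alexander u).coeff k * (t.diag.D.alexander u).coeff (k + 2) ≤
    (t.diag.D.alexander u).coeff (k + 1) ^ 2) ∧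
  (∀ i j k, i < j → j < k → (t.diag.D.alexander u).coeff i ≠ 0 →
    (t.diag.D.alexander u).coeff k ≠ 0 → (t.diag.D.alexander u).coeff j ≠ 0) ∧
  t.diag.D.alexander u ≠ 0

end Pool.Agent.Helper52.C2
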