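import Pool.Agent.Helper52.C2.Defs

/-!
PROJECT C2: ring tangles, products, multiaffine kernels, POS, substitution.
-/

namespace Pool.Agent.Helper52.C2

open LaurentPolynomial

/-! ### Products and rings -/

/-- the polynomial `(1 - x^n) / (1 - x)`, `n` an integer -/
noncomputable def geo (n : ℤ) : ℝ[T;T⁻¹] :=
  if 0 ≤ n then ∑ i ∈ Finset.range n.toNat, T i
  else - ∑ i ∈ Finset.range (-n).toNat, T (-1 - i)

theorem geo_mul (n : ℤ) : geo n * (1 - T 1) = 1 - T n := by
  unfold geo
  split_ifs with h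
  · obtain ⟨m, rfl⟩ := Int.eq_ofNat_of_zero_le h
    simp only [Int.toNat_natCast]
    induction m with
    | zero => simp
    | succ k ih =>
      rw [Finset.sum_range_succ, add_mul, ih (by positivity), mul_sub, mul_one, ← T_add]
      push_cast
      ring
  · push Not at h
    obtain ⟨m, hm⟩ := Int.eq_ofNat_of_zero_le (show 0 ≤ -n by omega)
    obtain rfl : n = -(m : ℤ) := by omega
    simp only [neg_neg, Int.toNat_natCast]
    clear h hm
    induction m with
    | zero => simp
    | succ k ih =>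
      rw [Finset.sum_range_succ, neg_add, add_mul, ih, neg_mul, mul_sub, mul_one, ← T_add]
      push_cast
      have e : (-1 - (k : ℤ) + 1) = -(k : ℤ) := by ring
      have e' : (-1 - (k : ℤ)) = -((k : ℤ) + 1) := by ring
      rw [e, e']
      ring

/-- the ring tangle `U^n` -/
noncomputable def U (n : ℤ) : Tg where
  L := 1
  R := T n
  F := geo n
  rel := geo_mul n

/-- COEFH. coefficient of the closure of `S U^n`. From `S.rel`: `S.F.coeff i = pre L i - pre R i`
(both sides have finite support on the left and the same first difference), and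
`U^n`: `F (U^n S) = x^n F_S + [n] L_S`, `pre (L) i - pre (L) (i-n)` is the coefficient of
`[n] L_S`; `pre R (i-n) = pre L (i-n) - F (i-n)`. -/
def GoalCoefH : Prop := ∀ (S : Tg) (n i : ℤ), ((U n).mul S).F.coeff i = S.h n i

/-- COEFMUL. The same for a tangle instead of a ring, with any coupling. -/
def GoalCoefMul : Prop := ∀ (A S : Tg) (c : Cpl A) (i : ℤ),
  (A.mul S).F.coeff i = ∑ p ∈ c.m.support, c.m p * S.h (p.2 - p.1) (i - p.1)

/-! ### Multiaffine kernels -/

/-- `Φ` is affine in every channel -/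
def Affine {J : Type} [DecidableEq J] (Φ : (J → Tg) → ℝ[T;T⁻¹]) : Prop :=
  ∀ (a : J → Tg) (k : J) (S : Tg), Φ (Function.update a k S) =
    S.R * Φ (Function.update a k (U 0)) +
      S.F * (Φ (Function.update a k (U 1)) - T 1 * Φ (Function.update a k (U 0)))

/-- the tangle seen by channel `k` -/
noncomputable def slot {J : Type} [DecidableEq J] (Φ : (J → Tg) → ℝ[T;T⁻¹]) (a : J → Tg)
    (k : J) : Tg where
  F := Φ (Function.update a k (U 0))
  L := Φ (Function.update a k (U 1)) - T 1 * Φ (Function.update a k (U 0))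
  R := Φ (Function.update a k (U 1)) - Φ (Function.update a k (U 0))
  rel := by ring

/-- positivity of all slots -/
def SlotNonneg {J : Type} [DecidableEq J] (Φ : (J → Tg) → ℝ[T;T⁻¹]) : Prop :=
  ∀ (a : J → Tg) (k : J), (∀ l, (a l).Nonneg) → (slot Φ a k).Nonneg

/-- the channels in `K` are rings of the sizes `n`, the others are the tangles `a` -/
noncomputable def asg {J : Type} (K : J → Prop) [DecidablePred K] (a : J → Tg) (n : J → ℤ)
    (k : J) : Tg :=
  if K k then U (n k) else a k

/-- The window of a kernel at the base `(n, i)`. -/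
noncomputable def kwin {J : Type} [DecidableEq J] (Φ : (J → Tg) → ℝ[T;T⁻¹]) (K : J → Prop)
    [DecidablePred K] (a : J → Tg) (n : J → ℤ) (i : ℤ) : Dir J → Dir J → ℝ
  | .X, .X => (Φ (asg K a n)).coeff (i + 2)
  | .X, .Y => (Φ (asg K a n)).coeff (i + 1)
  | .Y, .X => (Φ (asg K a n)).coeff (i + 1)
  | .Y, .Y => (Φ (asg K a n)).coeff i
  | .X, .V k => (Φ (asg K a (n - Pi.single k 1))).coeff (i + 1)
  | .V k, .X => (Φ (asg K a (n - Pi.single k 1))).coeff (i + 1)
  | .Y, .V k => (Φ (asg K a (n - Pi.single k 1))).coeff i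
  | .V k, .Y => (Φ (asg K a (n - Pi.single k 1))).coeff i
  | .V k, .V l => if k = l ∧ n k = 1 then
      max ((Φ (asg K a (n - Pi.single k 2))).coeff i) 0
    else (Φ (asg K a (n - Pi.single k 1 - Pi.single l 1))).coeff i

/-- All windows with sizes `≥ 0` are one-positive in `X`, `Y` and the ring channels of size
`≥ 1`. -/
def Pos {J : Type} [Fintype J] [DecidableEq J] (Φ : (J → Tg) → ℝ[T;T⁻¹]) (K : J → Prop)
    [DecidablePred K] (a : J → Tg) : Prop :=
  ∀ (n : J → ℤ) (i : ℤ), (∀ k, 0 ≤ n k) →
    OnePos (fun d => match d with | .V k => K k ∧ 1 ≤ n k | _ => True) (kwin Φ K a n i)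

/-- POS for the channels `K` with `k` replaced by the tangle `A` -/
def GoalSubst : Prop := ∀ (J : Type) [Fintype J] [DecidableEq J]
    (Φ : (J → Tg) → ℝ[T;T⁻¹]), Affine Φ → SlotNonneg Φ →
    ∀ (K : J → Prop) [DecidablePred K] (a : J → Tg) (k : J) (A : Tg),
      (∀ l, (a l).Nonneg) → K k → A.HH1 → Pos Φ K a →
      Pos Φ (fun l => K l ∧ l ≠ k) (Function.update a k A)

/-! ### The kernels -/

/-- closure pair and closure pair -/
noncomputable def K2 (a : Fin 4 → Tg) : ℝ[T;T⁻¹] :=
  (a 0).F * (a 1).F * ((a 2).mul (a 3)).F + ((a 0).mul (a 1)).F * (a 2).F * (a 3).F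

/-- closure pair and turned closure pair -/
noncomputable def K3 (a : Fin 4 → Tg) : ℝ[T;T⁻¹] :=
  ((a 0).mul (a 1)).F * ((a 2).mul (a 3)).F + T 1 * ((a 0).F * (a 1).F * (a 2).F * (a 3).F)

/-- product of three tangles -/
noncomputable def K1 (a : Fin 3 → Tg) : ℝ[T;T⁻¹] := ((a 0).mul ((a 1).mul (a 2))).F

/-- KERNELS in the POS sense (all channels rings). -/
def GoalK1 : Prop := Pos K1 (fun _ => True) (fun _ => U 0)
/-- KERNELS in the POS sense (all channels rings). -/
def GoalK2 : Prop := Pos K2 (fun _ => True) (fun _ => U 0)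
/-- KERNELS in the POS sense (all channels rings). -/
def GoalK3 : Prop := Pos K3 (fun _ => True) (fun _ => U 0)

end Pool.Agent.Helper52.C2
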