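import Pool.Agent.Helper99.LZ.Main0
import Pool.Agent.Helper82.LZ.BR4
import Pool.Agent.Helper25.LZ.R3
import Pool.Agent.Helper49.C2.Class
import Pool.Agent.Helper8.C2.Fin
import Pool.Agent.Helper39.C2.Supp
import Pool.Agent.Helper59.C2.Lau
import Pool.Agent.Helper95.C2.Ring
import Pool.Agent.Helper33.C2.Pre
import Pool.Agent.Helper58.C2.Alg
import Pool.Agent.Helper24.C2.Op
import Pool.Agent.Helper70.C2.Subst
import Pool.Agent.Helper81.C2.Pos1
import Pool.Agent.Helper82.C2.Ops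
import Pool.Agent.Helper98.C2K3.Main
import Pool.Agent.Helper59.C2K.K2

/-! PROJECT C2: assembly. -/

namespace Pool.Agent.Helper52.C2

open Pool.Agent

theorem subst (h : GoalMT1') : GoalSubst :=
  Helper70.C2.subst' (mt1_of h) Helper33.C2.goalCoefH Helper33.C2.goalCoefMul
    Helper24.C2.opMono Helper24.C2.opMap Helper58.C2.goalNonneg

theorem opsAll (h : GoalMT1') :
    (∀ A B : Tg, A.HH1 → B.HH1 → (A.mul B).HH1) ∧
    (∀ A B : Tg, A.HH1 → B.HH1 → GoodPair ((A.mul B).F) (A.F * B.F)) ∧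
    (∀ A B : Tg, A.HH1 → B.HH1 →
      GoodPair (LaurentPolynomial.T 1 * (A.F * B.F)) ((A.mul B).F)) :=
  Helper82.C2.ops (subst h) Helper33.C2.goalCoefH Helper24.C2.opMap Helper81.C2.pos1
    Helper58.C2.goalNonneg Helper58.C2.goalAff Helper58.C2.goalSlotEq Helper95.C2.k1
    Helper59.C2K.goalK2 Helper98.C2K3.goalK3

theorem classAll (h : GoalMT1') :
    (∀ T : Helper37.Arb.Tangle true, Fine T → ∃ S : Tg, S.HH1 ∧
      S.L = lau T.data.L ∧ S.R = lau T.data.R ∧ S.F = lau T.data.b) ∧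
    (∀ P : Helper37.Arb.Tangle false, Fine P → GoodPair (lau P.data.L) (lau P.data.b)) :=
  Helper49.C2.goalClass Helper59.C2.goalLau Helper95.C2.cross Helper95.C2.shift (opsAll h)

theorem final (h : GoalMT1') {s : Bool} (t : Helper37.Arb.Tangle s) (ht : Fine t)
    (u : t.diag.V) :
    (∀ k, 0 ≤ (-1) ^ k * (t.diag.D.alexander u).coeff k) ∧
    (∀ k, (t.diag.D.alexander u).coeff k * (t.diag.D.alexander u).coeff (k + 2) ≤
      (t.diag.D.alexander u).coeff (k + 1) ^ 2) ∧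
    (∀ i j k, i < j → j < k → (t.diag.D.alexander u).coeff i ≠ 0 →
      (t.diag.D.alexander u).coeff k ≠ 0 → (t.diag.D.alexander u).coeff j ≠ 0) ∧
    t.diag.D.alexander u ≠ 0 :=
  Helper8.C2.goalFinal Helper59.C2.goalLau Helper39.C2.supp (classAll h)
    (Helper8.C2.goalLc Helper33.C2.goalPre Helper24.C2.opTwo Helper95.C2.cross) t ht u

theorem mt1' (h4 : Helper99.LZ.StmtR4) : GoalMT1' :=
  Helper99.LZ.stmtMT1 (Helper25.LZ.r3 Helper67.LZ.kap) h4 Helper82.LZ.brd

end Pool.Agent.Helper52.C2
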